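import Pool.Agent.P.MP_cb4022_pr.DecayMain

namespace Pool.Agent.Results.MP_cb4022_pr.ExpDecay

open Pool.Agent.TAF

/-- For every inverse temperature, spin correlations decay exponentially in the bulk of long
rectangles, with constants that do not depend on the rectangle. -/
theorem result (β : ℝ) (hβ : 0 < β) : ∃ (ρ : ℕ) (C c : ℝ), 0 < c ∧
    ∀ (n M : ℕ) (u v : ℤ × ℤ), (∀ p, p = u ∨ p = v → (ρ * n : ℤ) ≤ p.2 ∧ p.2 + ρ * n ≤ M ∧
        dist (pos u) (pos v) ≤ (pos p).re ∧ (pos p).re ≤ n - dist (pos u) (pos v)) →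
      |expect β (dom n M) fun S => spinAt S u * spinAt S v| ≤
        C * Real.exp (-c * dist (pos u) (pos v)) :=
  exp_decay hβ

end Pool.Agent.Results.MP_cb4022_pr.ExpDecay
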