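import Pool.Agent.P.MP_cb4022_pr.LoopsMain

namespace Pool.Agent.Results.MP_cb4022_pr.LargeLoops

open Pool.Agent.TAF

/-- For every inverse temperature, in the bulk of long rectangles, large domain-wall loops are
found at every scale and every place with probability close to one. -/
theorem result (β : ℝ) (hβ : 0 < β) : ∃ ρ : ℕ, ∀ N : ℕ, 1 ≤ N → ∃ r₀ : ℕ,
    ∀ (n M r : ℕ) (z : ℤ × ℤ), r₀ ≤ r → 5 * N * r ≤ (pos z).re → (pos z).re ≤ n - 5 * N * r →
      (ρ * n : ℤ) ≤ z.2 → z.2 + ρ * n ≤ M →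
      1 - 3 * (3 / 5 : ℝ) ^ N ≤ prob β (dom n M) (BigLoop (pos z) (5 * N * r) r) :=
  large_loops hβ

end Pool.Agent.Results.MP_cb4022_pr.LargeLoops
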