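import Pool.Agent.P.MP_cb4022_pr.U.Final

/-! Universality of the domain-wall loops for small inverse temperature. -/

open Pool.Agent.TAF Filter Topology

theorem Pool.Agent.Results.MP_cb4022_pr.Universal.result :
    ∃ β₀ : ℝ, 0 < β₀ ∧ ∀ β : ℝ, |β| ≤ β₀ →
      ∀ Ω : Set ℂ, IsOpen Ω → Bornology.IsBounded Ω → ∀ Z : Finset ℂ,
        (∀ q ∈ frontier Ω, q ∉ Z → ∃ f : ℂ → ℝ, ContDiffAt ℝ 1 f q ∧ fderiv ℝ f q ≠ 0 ∧
          ∀ᶠ z in 𝓝 q, z ∈ Ω ↔ f z < 0) →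
        ∀ ε : ℝ, 0 < ε → ∃ δ₀ : ℝ, 0 < δ₀ ∧ ∀ δ : ℝ, 0 < δ → δ < δ₀ →
          ∀ D : Finset (ℤ × ℤ), (∀ u, u ∈ D ↔ δ * pos u ∈ Ω) →
            Coupling D (fun S => prob β D fun T => T = S) (fun S => prob 0 D fun T => T = S)
              (Close ε δ) ε :=
  Pool.Agent.TAF.U.universal
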